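import Pool.Agent.Q285.NG.Main

/-!
# Brownian fluctuations of the sums of Nagao for almost all hyperelliptic fibrations with `r` marked sections

Let `s₁, …, s_r` be distinct polynomials in `t`, and let `F₀ ∈ ℤ[t][x]` be such that `F₀(s_j) = y_j²` for nonzero polynomials
`y_j` in `t` (for instance `F₀ = g(t, x) ∏ (x - s_j) + h(t, x)²`, with arbitrary `g` and `h`, `h(s_j) ≠ 0`). The fibrations

`y² = F(t, x) = F₀(t, x) + ∏_j (x - s_j(t)) (u(t) + v(t) x)`,

where `u` and `v` run through the polynomials of degree at most `D`, have the `r` sections `(s_j, y_j)`. If `F₀` is monic in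
`x` of an odd degree larger than `r + 1`, all fibres have one point at infinity, and `p` minus the number of the affine points of
the fibre modulo `p` is the trace of the Frobenius on `H¹` of the (smooth) fibre. Let `A_p` be the mean of these traces over the
fibres at the points `t` modulo `p`. The question asks whether `∑_{p ≤ T} A_p log p / T` converges to minus the rank, so for the
general member of the family to `-r`, and what is needed is a bound `o(T)` for

`S(T) = ∑_{p ≤ T} (A_p + r) log p`.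

We show that for the members of the family `S(T)` is exactly of the order of magnitude `(T log T) ^ (1 / 2)`, and that the path
`τ ↦ S(τ T) / (T log T) ^ (1 / 2)`, `0 < τ ≤ 1`, converges in law to the Brownian motion: the coefficients of `u` and `v` are
chosen at random from any boxes with sides at least a (fixed, but large) power of `T`. In particular, for all but the part `ε` of
the members in any such box `|S(T)| ≤ λ (T log T) ^ (1 / 2)`, `λ = λ(ε)`; this is part 3.

Known in the starting files (`MP_1a0ddd_nt/HyperellipticSystems`, `MP_60fb2a_nt/RandomMembers`): upper bounds for the mean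
square of such sums, with powers of `log T` or `T ^ δ` to spare. The limit law is the theorem `nagaoB` of the library
`Pool.Agent.Q285.NG` of the starting files (by moments and characteristic functions; the values of `u + v x` at different points
`t` are independent), which no result of the starting files used.
-/

set_option autoImplicit false

namespace Pool.Agent.Results.MP_1a0ddd_nt.BrownianFluctuations

open Finset Polynomial Filter Topology
open scoped NNReal

/-- The value `F(t, x)` modulo `p` of a polynomial `F` in `ℤ[t][x]`. -/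
noncomputable def value (p : ℕ) (F : ℤ[X][X]) (t x : ZMod p) : ZMod p :=
  F.eval₂ (eval₂RingHom (Int.castRingHom (ZMod p)) t) x

/-- The polynomial `∑ aᵢ tⁱ` of degree at most `D`. -/
noncomputable def poly {D : ℕ} (a : Fin (D + 1) → ℤ) : ℤ[X] := ∑ i : Fin (D + 1), C (a i) * X ^ (i : ℕ)

/-- The member `F₀ + ∏ⱼ (x - sⱼ(t)) · (u(t) + v(t) x)` of the family; `u` and `v` have the coefficients `c (0, i)` and
`c (1, i)`. -/
noncomputable def member {D r : ℕ} (F₀ : ℤ[X][X]) (s : Fin r → ℤ[X]) (c : Fin 2 × Fin (D + 1) → ℤ) : ℤ[X][X] :=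
  F₀ + (∏ j, (X - C (s j))) * (C (poly fun i => c (0, i)) + C (poly fun i => c (1, i)) * X)

/-- The mean `A_p` over the `t` modulo `p` of the traces `p - #{(x, y) : y² = F(t, x)}` of the fibres of `y² = F(t, x)`. -/
noncomputable def trace (F : ℤ[X][X]) (p : ℕ) : ℝ :=
  (∑ t ∈ range p, ((p : ℝ) - Nat.card {z : ZMod p × ZMod p // z.2 ^ 2 = value p F (t : ZMod p) z.1})) / p

/-- `∑_{p ≤ T} (A_p + r) log p`. -/
noncomputable def nagao (r : ℕ) (F : ℤ[X][X]) (T : ℕ) : ℝ :=
  ∑ p ∈ (Icc 1 T).filter Nat.Prime, (trace F p + r) * Real.log p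

/-- The box of the `c` with `N i ≤ c i < N i + L i`. -/
noncomputable def box {κ : Type} [Fintype κ] [DecidableEq κ] (N : κ → ℤ) (L : κ → ℕ) : Finset (κ → ℤ) :=
  Fintype.piFinset fun i => Ico (N i) (N i + L i)

/-- The probability of `B(τ) ≤ x τ` for all `τ ∈ I`, where `B` is the Brownian motion (its law at the times of `I` is the
centred Gaussian law with the covariances `min τ τ'`). -/
noncomputable def brownian (I : Finset ℝ≥0) (x : I → ℝ) : ℝ :=
  (ProbabilityTheory.BrownianReal.projectiveFamily I (Set.Iic x)).toReal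

section

variable {D r : ℕ} {F₀ : ℤ[X][X]} {s y : Fin r → ℤ[X]}

lemma card_box {κ : Type} [Fintype κ] [DecidableEq κ] (N : κ → ℤ) (L : κ → ℕ) : ((box N L).card : ℝ) = ∏ i, (L i : ℝ) := by
  unfold box
  rw [Fintype.card_piFinset]
  push_cast
  refine prod_congr rfl fun i _ => ?_
  rw [Int.card_Ico]
  simp

lemma nagao_eq (F₀ : ℤ[X][X]) (s : Fin r → ℤ[X]) (c : Fin 2 × Fin (D + 1) → ℤ) {X Y : ℕ} (hY : Y ≤ X) :
    ∑ p ∈ Q282.BP.PP Y, Q285NG.lm X p * Q285NG.HP F₀ s p (fun i => (c i : ZMod p)) =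
      nagao r (member F₀ s c) Y / Real.sqrt (X * Real.log X) := by
  unfold nagao
  rw [sum_div]
  refine sum_congr rfl fun p hp => ?_
  have hpY : p ≤ Y := (mem_Icc.1 (mem_filter.1 hp).1).2
  rw [Q285NG.HP_fam]
  unfold Q285NG.lm
  rw [if_pos (hpY.trans hY)]
  have : Q285NG.avTr p (Q285NG.fam F₀ s c) = trace (member F₀ s c) p := rfl
  rw [this]
  ring

open Classical in
theorem limit (hD : 3 ≤ D) (hs : Function.Injective s) (hy : ∀ j, y j ≠ 0) (hq : ∀ j, F₀.eval (s j) = y j ^ 2)
    (I : Finset ℝ≥0) (hI : ∀ τ ∈ I, 0 < τ ∧ τ ≤ 1) (x : I → ℝ) (ε : ℝ) (hε : 0 < ε) :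
    ∃ n : ℕ, ∀ T : ℕ, n ≤ T → ∀ (N : Fin 2 × Fin (D + 1) → ℤ) (L : Fin 2 × Fin (D + 1) → ℕ), (∀ i, T ^ n ≤ L i) →
      |(((box N L).filter fun c => ∀ τ : I, nagao r (member F₀ s c) ⌊((τ : ℝ≥0) : ℝ) * T⌋₊ /
        Real.sqrt (T * Real.log T) ≤ x τ).card : ℝ) / (box N L).card - brownian I x| ≤ ε := by
  obtain ⟨n, hn⟩ := Q285NG.nagaoB (D := D) hD hs hy hq I hI x ε hε
  refine ⟨n, fun T hT N L hL => ?_⟩
  have h1 := hn T hT N L fun i => by exact_mod_cast hL i
  rw [card_box]
  have h2 : (box N L).filter (fun c => ∀ τ : I, nagao r (member F₀ s c) ⌊((τ : ℝ≥0) : ℝ) * T⌋₊ /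
        Real.sqrt (T * Real.log T) ≤ x τ) =
      (Q282.GK.kbox N L).filter fun t => ∀ τ : I, ∑ p ∈ Q282.BP.PP ⌊((τ : ℝ≥0) : ℝ) * T⌋₊,
        Q285NG.lm T p * Q285NG.HP F₀ s p (fun i => (t i : ZMod p)) ≤ x τ := by
    unfold box Q282.GK.kbox
    refine filter_congr fun c _ => forall_congr' fun τ => ?_
    have h3 : ⌊((τ : ℝ≥0) : ℝ) * T⌋₊ ≤ T := by
      refine Nat.floor_le_of_le ?_
      have h1 : ((τ : ℝ≥0) : ℝ) ≤ 1 := by exact_mod_cast (hI τ τ.2).2
      have h2 : (0 : ℝ) ≤ T := Nat.cast_nonneg T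
      nlinarith
    rw [nagao_eq F₀ s c h3]
  rw [h2]
  exact h1

end

open Classical in
/-- **Main theorem.** Let `D ≥ 3`, let `s j` be distinct polynomials in `t` and `y j ≠ 0`, `F₀(s j) = (y j) ^ 2`.
(1) All members of the family have the marked sections `(s j, y j)`.
(2) For all `0 < τ ≤ 1` in a finite set `I`, all real numbers `x τ` and `ε > 0` there is an `n`, such that for all `T ≥ n` and all
boxes with sides at least `T ^ n` the proportion of the members of the box with
`∑_{p ≤ τ T} (A_p + r) log p ≤ x τ (T log T) ^ (1 / 2)` for all `τ ∈ I` differs by at most `ε` from the probability that the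
Brownian motion is at most `x τ` at all times `τ ∈ I`.
(3) For all `ε > 0` there are `lam` and `n` such that for all `T ≥ n` and all boxes with sides at least `T ^ n` all members but the
part `ε` satisfy `|∑_{p ≤ T} (A_p + r) log p| ≤ lam (T log T) ^ (1 / 2)`. -/
theorem result (D r : ℕ) (hD : 3 ≤ D) (F₀ : ℤ[X][X]) (s y : Fin r → ℤ[X]) (hs : Function.Injective s)
    (hy : ∀ j, y j ≠ 0) (hq : ∀ j, F₀.eval (s j) = y j ^ 2) :
    (∀ (c : Fin 2 × Fin (D + 1) → ℤ) (j : Fin r), (member F₀ s c).eval (s j) = y j ^ 2) ∧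
    (∀ I : Finset ℝ≥0, (∀ τ ∈ I, 0 < τ ∧ τ ≤ 1) → ∀ (x : I → ℝ) (ε : ℝ), 0 < ε →
      ∃ n : ℕ, ∀ T : ℕ, n ≤ T → ∀ (N : Fin 2 × Fin (D + 1) → ℤ) (L : Fin 2 × Fin (D + 1) → ℕ), (∀ i, T ^ n ≤ L i) →
        |(((box N L).filter fun c => ∀ τ : I, nagao r (member F₀ s c) ⌊((τ : ℝ≥0) : ℝ) * T⌋₊ /
          Real.sqrt (T * Real.log T) ≤ x τ).card : ℝ) / (box N L).card - brownian I x| ≤ ε) ∧
    ∀ ε : ℝ, 0 < ε → ∃ (lam : ℝ) (n : ℕ), ∀ T : ℕ, n ≤ T → ∀ (N : Fin 2 × Fin (D + 1) → ℤ) (L : Fin 2 × Fin (D + 1) → ℕ),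
      (∀ i, T ^ n ≤ L i) →
        (((box N L).filter fun c => lam * Real.sqrt (T * Real.log T) < |nagao r (member F₀ s c) T|).card : ℝ) ≤
          ε * (box N L).card := by
  refine ⟨fun c j => ?_, fun I hI x ε hε => limit hD hs hy hq I hI x ε hε, fun ε hε => ?_⟩
  · unfold member
    rw [eval_add, eval_mul, eval_prod, hq j, prod_eq_zero (mem_univ j) (by simp), zero_mul, add_zero]
  · obtain ⟨I, hI⟩ : ∃ I : Finset ℝ≥0, I = {1} := ⟨_, rfl⟩
    have hI1 : ∀ τ ∈ I, 0 < τ ∧ τ ≤ 1 := fun τ hτ => by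
      rw [hI, mem_singleton] at hτ
      rw [hτ]
      exact ⟨one_pos, le_rfl⟩
    have hIt : ∀ τ : I, (τ : ℝ≥0) = 1 := fun τ => by
      have h1 : ∀ J : Finset ℝ≥0, J = {1} → (τ : ℝ≥0) ∈ J → (τ : ℝ≥0) = 1 := fun J hJ h => by
        rw [hJ, mem_singleton] at h
        exact h
      exact h1 I hI τ.2
    have hne : Nonempty I := ⟨⟨1, by rw [hI]; exact mem_singleton_self 1⟩⟩
    -- the tails of the Brownian motion
    have ht1 : Tendsto (fun k : ℕ => brownian I fun _ => (k : ℝ)) atTop (𝓝 1) := by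
      have h1 := MeasureTheory.tendsto_measure_iUnion_atTop (μ := ProbabilityTheory.BrownianReal.projectiveFamily I)
        (s := fun k : ℕ => Set.Iic (fun _ : I => (k : ℝ))) (fun k l hkl => Set.Iic_subset_Iic.2 fun _ => by
          have : (k : ℝ) ≤ l := by exact_mod_cast hkl
          exact this)
      have h2 : ⋃ k : ℕ, Set.Iic (fun _ : I => (k : ℝ)) = Set.univ := by
        rw [Set.eq_univ_iff_forall]
        intro z
        rw [Set.mem_iUnion]
        have h3 : ∀ i : I, ∀ᶠ k : ℕ in atTop, z i ≤ (k : ℝ) := fun i => tendsto_natCast_atTop_atTop.eventually_ge_atTop _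
        obtain ⟨k, hk⟩ := (eventually_all.2 h3).exists
        exact ⟨k, fun i => hk i⟩
      rw [h2] at h1
      rw [MeasureTheory.measure_univ] at h1
      have h2 := (ENNReal.tendsto_toReal ENNReal.one_ne_top).comp h1
      rw [ENNReal.toReal_one] at h2
      exact h2
    have ht2 : Tendsto (fun k : ℕ => brownian I fun _ => -(k : ℝ)) atTop (𝓝 0) := by
      have h1 := MeasureTheory.tendsto_measure_iInter_atTop (μ := ProbabilityTheory.BrownianReal.projectiveFamily I)
        (s := fun k : ℕ => Set.Iic (fun _ : I => -(k : ℝ))) (fun k => measurableSet_Iic.nullMeasurableSet)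
        (fun k l hkl => Set.Iic_subset_Iic.2 fun _ => by
          have : (k : ℝ) ≤ l := by exact_mod_cast hkl
          show -(l : ℝ) ≤ -(k : ℝ)
          linarith) ⟨0, MeasureTheory.measure_ne_top _ _⟩
      have h2 : ⋂ k : ℕ, Set.Iic (fun _ : I => -(k : ℝ)) = ∅ := by
        rw [Set.eq_empty_iff_forall_notMem]
        intro z hz
        obtain ⟨i⟩ := hne
        obtain ⟨k, hk⟩ := exists_nat_gt (-(z i))
        have h3 := Set.mem_iInter.1 hz k i
        have h4 : z i ≤ -(k : ℝ) := h3
        linarith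
      rw [h2, MeasureTheory.measure_empty] at h1
      have h3 := (ENNReal.tendsto_toReal ENNReal.zero_ne_top).comp h1
      rw [ENNReal.toReal_zero] at h3
      exact h3
    have hε4 : 0 < ε / 4 := by positivity
    obtain ⟨k, hk1, hk2⟩ := ((ht1.eventually (lt_mem_nhds (show (1 : ℝ) - ε / 4 < 1 by linarith))).and
      (ht2.eventually (gt_mem_nhds hε4))).exists
    obtain ⟨n₁, hn₁⟩ := limit hD hs hy hq I hI1 (fun _ => (k : ℝ)) (ε / 4) hε4
    obtain ⟨n₂, hn₂⟩ := limit hD hs hy hq I hI1 (fun _ => -(k : ℝ)) (ε / 4) hε4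
    refine ⟨k, max (max n₁ n₂) 2, fun T hT N L hL => ?_⟩
    have hT2 : 2 ≤ T := (le_max_right _ _).trans hT
    have hT1 : (1 : ℝ) < T := by exact_mod_cast (by omega : 1 < T)
    have hq0 : 0 < Real.sqrt (T * Real.log T) := Real.sqrt_pos.2 (mul_pos (by linarith) (Real.log_pos hT1))
    have hmono : ∀ m : ℕ, m ≤ max (max n₁ n₂) 2 → ∀ i, T ^ m ≤ L i := fun m hm i =>
      (Nat.pow_le_pow_right (by omega) hm).trans (hL i)
    have h1 := hn₁ T (((le_max_left _ _).trans (le_max_left _ _)).trans hT) N L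
      (hmono n₁ ((le_max_left _ _).trans (le_max_left _ _)))
    have h2 := hn₂ T (((le_max_right _ _).trans (le_max_left _ _)).trans hT) N L
      (hmono n₂ ((le_max_right _ _).trans (le_max_left _ _)))
    have hfl : ∀ τ : I, ⌊((τ : ℝ≥0) : ℝ) * T⌋₊ = T := fun τ => by
      rw [hIt τ, NNReal.coe_one, one_mul, Nat.floor_natCast]
    have hB : 0 < (box N L).card := by
      rw [Finset.card_pos]
      refine ⟨N, ?_⟩
      unfold box
      rw [Fintype.mem_piFinset]
      intro i
      rw [mem_Ico]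
      have h3 : 0 < L i := lt_of_lt_of_le (pow_pos (by omega : 0 < T) _) (hL i)
      constructor <;> omega
    have hB' : (0 : ℝ) < (box N L).card := by exact_mod_cast hB
    obtain ⟨G, hG⟩ : ∃ G : (Fin 2 × Fin (D + 1) → ℤ) → ℝ, G = fun c => nagao r (member F₀ s c) T / Real.sqrt (T * Real.log T) :=
      ⟨_, rfl⟩
    have e1 : ∀ z : ℝ, (box N L).filter (fun c => ∀ τ : I, nagao r (member F₀ s c) ⌊((τ : ℝ≥0) : ℝ) * T⌋₊ /
        Real.sqrt (T * Real.log T) ≤ z) = (box N L).filter fun c => G c ≤ z := by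
      intro z
      refine filter_congr fun c _ => ?_
      constructor
      · intro h
        obtain ⟨i⟩ := hne
        have h3 := h i
        rw [hfl] at h3
        rw [hG]
        exact h3
      · intro h τ
        rw [hfl]
        rw [hG] at h
        exact h
    rw [e1] at h1 h2
    have h3 := (abs_le.1 h1).1
    have h4 := (abs_le.1 h2).2
    have h5 : (1 - ε / 2) * (box N L).card ≤ (((box N L).filter fun c => G c ≤ (k : ℝ)).card : ℝ) := by
      have : 1 - ε / 2 ≤ (((box N L).filter fun c => G c ≤ (k : ℝ)).card : ℝ) / (box N L).card := by linarith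
      rwa [le_div_iff₀ hB'] at this
    have h6 : (((box N L).filter fun c => G c ≤ -(k : ℝ)).card : ℝ) ≤ ε / 2 * (box N L).card := by
      have : (((box N L).filter fun c => G c ≤ -(k : ℝ)).card : ℝ) / (box N L).card ≤ ε / 2 := by linarith
      rwa [div_le_iff₀ hB'] at this
    -- the decomposition
    have h7 : (box N L).filter (fun c => (k : ℝ) * Real.sqrt (T * Real.log T) < |nagao r (member F₀ s c) T|) ⊆
        ((box N L).filter fun c => ¬ G c ≤ (k : ℝ)) ∪ ((box N L).filter fun c => G c ≤ -(k : ℝ)) := by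
      intro c hc
      rw [mem_filter] at hc
      rw [mem_union, mem_filter, mem_filter]
      by_cases h8 : G c ≤ (k : ℝ)
      · refine Or.inr ⟨hc.1, ?_⟩
        rw [hG] at h8 ⊢
        have h9 : nagao r (member F₀ s c) T / Real.sqrt (T * Real.log T) ≤ k := h8
        rw [div_le_iff₀ hq0] at h9
        show nagao r (member F₀ s c) T / Real.sqrt (T * Real.log T) ≤ -(k : ℝ)
        rw [div_le_iff₀ hq0]
        rcases lt_abs.1 hc.2 with h10 | h10
        · linarith
        · linarith
      · exact Or.inl ⟨hc.1, h8⟩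
    have h8 : (((box N L).filter fun c => G c ≤ (k : ℝ)).card : ℝ) + ((box N L).filter fun c => ¬ G c ≤ (k : ℝ)).card =
        (box N L).card := by
      exact_mod_cast card_filter_add_card_filter_not (s := box N L) (fun c => G c ≤ (k : ℝ))
    have h9 : (((box N L).filter fun c => (k : ℝ) * Real.sqrt (T * Real.log T) < |nagao r (member F₀ s c) T|).card : ℝ) ≤
        ((box N L).filter fun c => ¬ G c ≤ (k : ℝ)).card + ((box N L).filter fun c => G c ≤ -(k : ℝ)).card := by
      exact_mod_cast (card_le_card h7).trans (card_union_le _ _)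
    linarith

end Pool.Agent.Results.MP_1a0ddd_nt.BrownianFluctuations
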